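import Pool.Agent.MP_13e7a1_an.H48.DiscA
import Pool.Agent.MP_13e7a1_an.H72.Semi

/-!
Holomorphic discs, second part: the family and its normalisation.
-/

open scoped ContDiff Topology
open Set Metric MeasureTheory Filter

noncomputable section

namespace Pool.Agent.MP_13e7a1_an.H48

open Pool.Agent.MP_13e7a1_an.H82

theorem fderiv_quad {Y : Type} [NormedAddCommGroup Y] [NormedSpace ℝ Y] {M : Y → E →L[ℝ] E}
    {P : Y → E} (hM : ContDiff ℝ ∞ M) (hP : ContDiff ℝ ∞ P) {y : Y} (h1 : M y = 0) (h2 : P y = 0) :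
    HasFDerivAt (fun w => M w (P w)) (0 : Y →L[ℝ] E) y := by
  have := ((hM.differentiable (by simp)) y).hasFDerivAt.clm_apply
    ((hP.differentiable (by simp)) y).hasFDerivAt
  rw [h1, h2] at this
  simpa using this

/-- The real linear map `ζ ↦ re ζ • Z + im ζ • J₀ Z`. -/
def lin (J₀ : E →L[ℝ] E) (Z : E) : ℂ →L[ℝ] E :=
  Complex.reCLM.smulRight Z + Complex.imCLM.smulRight (J₀ Z)

theorem lin_apply (J₀ : E →L[ℝ] E) (Z : E) (ζ : ℂ) : lin J₀ Z ζ = ζ.re • Z + ζ.im • J₀ Z := by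
  simp [lin]

/-- A family of solutions of the first order system, before normalisation. -/
theorem family (hA : SCauA) (hB : SCauB) (hS : SSemi) (J₀ : E →L[ℝ] E) (hJ : ∀ v, J₀ (J₀ v) = -v)
    {J : E → E →L[ℝ] E} {p : E} {R₁ : ℝ} {B A : ℂ × E → E →L[ℝ] E} (hF : Frame J p R₁ B A) :
    ∃ f : (E × E) × ℂ → E × E, ContDiff ℝ ∞ f ∧
      (∀ γ : ℝ, 0 < γ → ∀ᶠ q in 𝓝 ((p, 0) : E × E), ∀ z, ‖f (q, z)‖ ≤ γ) ∧
      (∀ z, HasFDerivAt (fun q => f (q, z)) (0 : (E × E) →L[ℝ] E × E) (p, 0)) ∧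
      ∀ᶠ q in 𝓝 ((p, 0) : E × E), ∀ z,
        fderiv ℝ (fun ζ => q.1 + lin J₀ q.2 ζ + (f (q, ζ)).1) z 1 =
          B (z, q.1 + lin J₀ q.2 z + (f (q, z)).1) (q.2 + (f (q, z)).2) ∧
        fderiv ℝ (fun ζ => q.1 + lin J₀ q.2 ζ + (f (q, ζ)).1) z Complex.I =
          B (z, q.1 + lin J₀ q.2 z + (f (q, z)).1) (J₀ (q.2 + (f (q, z)).2)) := by
  obtain ⟨η, hη, hc⟩ := compat hA hB J₀ hJ hF
  let L : ℂ × (E × E) × (E × E) → ℂ × E := fun y => (y.1, y.2.1.1 + lin J₀ y.2.1.2 y.1 + y.2.2.1)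
  let P : ℂ × (E × E) × (E × E) → E := fun y => y.2.1.2 + y.2.2.2
  have hL : ContDiff ℝ ∞ L := by
    simp only [L, lin_apply]
    have h1 := Complex.reCLM.contDiff (n := ∞)
    have h2 := Complex.imCLM.contDiff (n := ∞)
    refine contDiff_fst.prodMk ((contDiff_snd.fst.fst.add
      (((h1.comp contDiff_fst).smul contDiff_snd.fst.snd).add
        ((h2.comp contDiff_fst).smul (J₀.contDiff.comp contDiff_snd.fst.snd)))).add
      contDiff_snd.snd.fst)
  have hP : ContDiff ℝ ∞ P := contDiff_snd.fst.snd.add contDiff_snd.snd.snd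
  have hBL : ContDiff ℝ ∞ fun y => B (L y) := hF.smB.comp hL
  have hDL : ContDiff ℝ ∞ fun y => fderiv ℝ B (L y) := (hF.smB.fderiv_right (by simp)).comp hL
  let M₁ : ℂ × (E × E) × (E × E) → E →L[ℝ] E := fun y => B (L y) + J₀.comp ((B (L y)).comp J₀)
  let M₂ : ℂ × (E × E) × (E × E) → E →L[ℝ] E := fun y => J₀.comp ((A (L y)).comp
    ((fderiv ℝ B (L y) (1, B (L y) (P y))).comp J₀
      - fderiv ℝ B (L y) (Complex.I, B (L y) (J₀ (P y)))))
  have hM₁ : ContDiff ℝ ∞ M₁ := hBL.add (contDiff_const.clm_comp (hBL.clm_comp contDiff_const))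
  have hM₂ : ContDiff ℝ ∞ M₂ := contDiff_const.clm_comp ((hF.smA.comp hL).clm_comp
    (((hDL.clm_apply (contDiff_const.prodMk (hBL.clm_apply hP))).clm_comp contDiff_const).sub
      (hDL.clm_apply (contDiff_const.prodMk (hBL.clm_apply (J₀.contDiff.comp hP))))))
  let Φ : ℂ × (E × E) × (E × E) → E × E := fun y => (M₁ y (P y), M₂ y (P y))
  have hΦ : ContDiff ℝ ∞ Φ := (hM₁.clm_apply hP).prodMk (hM₂.clm_apply hP)
  have hid : ∀ y, B (L y) = ContinuousLinearMap.id ℝ E → M₁ y = 0 := fun y h => by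
    ext1 v
    simp [M₁, h, hJ]
  have hfar : ∀ ζ q v, 3 ≤ ‖ζ‖ → Φ (ζ, q, v) = 0 := fun ζ q v h => by
    obtain ⟨h1, h2⟩ := hF.far (L (ζ, q, v)) h
    simp [Φ, hid _ h1, M₂, h2]
  have hP0 : ∀ ζ, P (ζ, (p, 0), 0) = 0 := fun ζ => by simp [P]
  have hL0 : ∀ ζ, L (ζ, (p, 0), 0) = (ζ, p) := fun ζ => by simp [L, lin_apply]
  have hD0 : ∀ ζ w : ℂ, fderiv ℝ B (ζ, p) (w, 0) = 0 := fun ζ w => by
    have h1 := (((hF.smB.differentiable (by simp)) (ζ, p)).hasFDerivAt.comp ζ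
      (hasFDerivAt_prodMk_left (𝕜 := ℝ) ζ p)).fderiv
    have h2 : (B ∘ fun e : ℂ => (e, p)) = fun _ => ContinuousLinearMap.id ℝ E := funext hF.base
    rw [h2, fderiv_fun_const] at h1
    exact (congrArg (fun T => T w) h1).symm
  have hd0 : ∀ ζ, fderiv ℝ (fun y : (E × E) × (E × E) => Φ (ζ, y)) ((p, 0), 0) = 0 := fun ζ => by
    have h1 := fderiv_quad hM₁ hP (hid _ (by rw [hL0, hF.base])) (hP0 ζ)
    have h2 := fderiv_quad hM₂ hP (y := (ζ, (p, 0), 0)) (by simp [M₂, hL0, hP0, hD0]) (hP0 ζ)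
    have h3 := ((h1.prodMk h2).comp (((p, 0), 0) : (E × E) × (E × E))
      (hasFDerivAt_prodMk_right (𝕜 := ℝ) ζ _)).fderiv
    refine h3.trans ?_
    ext <;> simp
  obtain ⟨δ, hδ, f, hf, hfe, hfs, hfd⟩ := hS (E × E) (E × E) (J₀.prodMap J₀) Φ (p, 0) hΦ hfar
    (fun ζ => by simp [Φ, hP0]) hd0
  obtain ⟨r, hr, hrm, hre⟩ := exists_retr ((p, 0) : E × E) (ball_mem_nhds _ hδ)
  have hg : ContDiff ℝ ∞ fun y : (E × E) × ℂ => f (r y.1, y.2) :=
    hf.comp_contDiff ((hr.comp contDiff_fst).prodMk contDiff_snd) fun y => ⟨hrm _, mem_univ _⟩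
  refine ⟨fun y => f (r y.1, y.2), hg, fun γ hγ => ?_, fun z => ?_, ?_⟩
  · filter_upwards [hre, hfs γ hγ] with q h1 h2 z
    simp only [h1]
    exact h2 z
  · refine (hfd z).congr_of_eventuallyEq ?_
    filter_upwards [hre] with q h1
    simp only [h1]
  have hq2 : ∀ᶠ q in 𝓝 ((p, 0) : E × E), ‖q.2‖ < η / 2 :=
    (continuous_snd.norm.continuousAt (x := ((p, 0) : E × E))).eventually
      (gt_mem_nhds (by simpa using hη))
  filter_upwards [hre, hfs (η / 2) (by linarith), hq2] with q h1 h2 h3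
  have hq : q ∈ ball ((p, 0) : E × E) δ := h1 ▸ hrm q
  have hfq : ContDiff ℝ ∞ fun ζ => f (q, ζ) := by
    have := hg.comp (contDiff_const.prodMk contDiff_id : ContDiff ℝ ∞ fun ζ : ℂ => (q, ζ))
    simpa only [Function.comp_def, h1] using this
  simp only [h1]
  let g : ℂ → E × E := fun ζ => Φ (ζ, q, f (q, ζ))
  have hgs : ContDiff ℝ ∞ g := hΦ.comp (contDiff_id.prodMk (contDiff_const.prodMk hfq))
  have hgc : HasCompactSupport g :=
    HasCompactSupport.intro (isCompact_closedBall (0 : ℂ) 3) fun z h =>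
      hfar _ _ _ (le_of_lt (by simpa using h))
  have hfg : (fun ζ => f (q, ζ)) = cT (J₀.prodMap J₀) g := funext (hfe q hq)
  have hdb : ∀ z, dbar (J₀.prodMap J₀) (fun ζ => f (q, ζ)) z = g z := fun z => by
    rw [hfg]
    exact hB.solve _ _ (fun v => by ext1 <;> simp [hJ]) g hgs hgc z
  have hd := fun z => ((hfq.differentiable (by simp)) z).hasFDerivAt
  have hdl : ∀ z v, fderiv ℝ (fun ζ => q.1 + lin J₀ q.2 ζ + (f (q, ζ)).1) z v =
      lin J₀ q.2 v + (fderiv ℝ (fun ζ => f (q, ζ)) z v).1 := fun z v => by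
    rw [((((lin J₀ q.2).hasFDerivAt (x := z)).const_add q.1).fun_add (hd z).fst).fderiv]
    simp
  have hdP : ∀ z v, fderiv ℝ (fun ζ => q.2 + (f (q, ζ)).2) z v =
      (fderiv ℝ (fun ζ => f (q, ζ)) z v).2 := fun z v => by
    rw [((hd z).snd.const_add q.2).fderiv]
    simp
  refine hc (fun ζ => q.1 + lin J₀ q.2 ζ + (f (q, ζ)).1) (fun ζ => q.2 + (f (q, ζ)).2)
    ((contDiff_const.add (lin J₀ q.2).contDiff).add hfq.fst) (contDiff_const.add hfq.snd)
    (fun z => ?_) (fun z => ?_) (fun z => ?_) ?_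
  · have := (norm_snd_le _).trans (h2 z)
    exact (norm_add_le _ _).trans (by linarith)
  · have := congrArg Prod.fst (hdb z)
    simp only [dbar, Prod.fst_add, ContinuousLinearMap.coe_prodMap', Prod.map_fst] at this
    simp only [dbar, hdl]
    simp only [lin_apply, map_add, Complex.one_re, Complex.one_im, Complex.I_re,
      Complex.I_im, one_smul, zero_smul, add_zero, zero_add, hJ]
    have e : (g z).1 = B (L (z, q, f (q, z))) (P (z, q, f (q, z)))
        + J₀ (B (L (z, q, f (q, z))) (J₀ (P (z, q, f (q, z))))) := rfl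
    rw [e] at this
    simp only [L, P, lin_apply, map_add] at this
    linear_combination (norm := module) this
  · have := congrArg Prod.snd (hdb z)
    simp only [dbar, Prod.snd_add, ContinuousLinearMap.coe_prodMap', Prod.map_snd] at this
    simp only [dbar, hdP]
    exact this
  · have h4 := hA.decay _ (J₀.prodMap J₀) g hgs.continuous hgc
    have h5 := hA.decay _ (J₀.prodMap J₀) (fun ζ => fderiv ℝ g ζ 1)
      ((hgs.continuous_fderiv (by simp)).clm_apply continuous_const) (hgc.fderiv_apply ℝ 1)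
    have h6 := (h5.fst_nhds).sub (h4.snd_nhds)
    simp only [Prod.fst_zero, Prod.snd_zero, sub_zero] at h6
    refine h6.congr fun z => ?_
    rw [hdl, lin_apply, hfg, (hA.smooth _ _ g hgs hgc).2, ← hfg]
    simp

theorem disc (hA : SCauA) (hB : SCauB) (hS : SSemi) : SDisc := by
  intro c p R hR
  obtain ⟨R₁, hR₁, hR₁R, B, A, hF⟩ := exists_frame c p R hR
  obtain ⟨f, hf, hfs, hfd, hfe⟩ := family hA hB hS (c.J p) (c.sq p) hF
  let Λ : (E × E) × ℂ → E := fun y => y.1.1 + lin (c.J p) y.1.2 y.2 + (f y).1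
  have hΛ : ContDiff ℝ ∞ Λ := by
    simp only [Λ, lin_apply]
    have h1 := Complex.reCLM.contDiff (n := ∞)
    have h2 := Complex.imCLM.contDiff (n := ∞)
    exact (contDiff_fst.fst.add (((h1.comp contDiff_snd).smul contDiff_fst.snd).add
        ((h2.comp contDiff_snd).smul ((c.J p).contDiff.comp contDiff_fst.snd)))).add hf.fst
  have hf0 : ∀ z, f ((p, 0), z) = 0 := fun z =>
    norm_le_zero_iff.1 (le_of_forall_pos_le_add fun γ hγ => by
      simpa using (hfs γ hγ).self_of_nhds z)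
  have hΛ0 : ∀ z, Λ ((p, 0), z) = p := fun z => by simp [Λ, hf0, lin_apply]
  have hΛd : ∀ z, HasFDerivAt (fun q => Λ (q, z)) (ContinuousLinearMap.fst ℝ E E
      + (z.re • ContinuousLinearMap.id ℝ E + z.im • c.J p).comp (ContinuousLinearMap.snd ℝ E E))
      (p, 0) := fun z => by
    have h1 := ((ContinuousLinearMap.fst ℝ E E
      + (z.re • ContinuousLinearMap.id ℝ E + z.im • c.J p).comp
        (ContinuousLinearMap.snd ℝ E E)).hasFDerivAt (x := (p, 0))).fun_add (hfd z).fst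
    simp only [ContinuousLinearMap.comp_zero, add_zero] at h1
    refine h1.congr_of_eventuallyEq (Eventually.of_forall fun q => ?_)
    simp [Λ, lin_apply]
  let Ψ : E × E → E × E := fun q => (Λ (q, 0), B (0, Λ (q, 0)) (q.2 + (f (q, 0)).2))
  have hi : ContDiff ℝ ∞ fun q : E × E => (q, (0 : ℂ)) := contDiff_id.prodMk contDiff_const
  have hBΛ : ContDiff ℝ ∞ fun q : E × E => B (0, Λ (q, 0)) :=
    hF.smB.comp (contDiff_const.prodMk (hΛ.comp hi))
  have hΨ : ContDiff ℝ ∞ Ψ :=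
    (hΛ.comp hi).prodMk (hBΛ.clm_apply (contDiff_snd.add (hf.comp hi).snd))
  have hΨd : HasFDerivAt Ψ (ContinuousLinearMap.id ℝ (E × E)) (p, 0) := by
    have h1 := ((hBΛ.differentiable (by simp)) (p, 0)).hasFDerivAt.clm_apply
      ((hasFDerivAt_snd (p := ((p, 0) : E × E))).fun_add (hfd 0).snd)
    refine ((hΛd 0).prodMk h1).congr_fderiv ?_
    ext <;> simp [hΛ0, hF.base, hf0]
  obtain ⟨σ, ρ, δ₀, hδ₀, -, -, hσ0, hσd, hσ, -⟩ := H72.exists_inverse (fun q => q - Ψ q)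
    (contDiff_id.sub hΨ) (p, 0) (by simp [Ψ, hΛ0, hf0]) 
    (((hasFDerivAt_id _).fun_sub hΨd).fderiv.trans (sub_self _))
  have hK : 0 < ‖c.J p‖ + 3 := by positivity
  have hγ : 0 < R₁ / (‖c.J p‖ + 3) := by positivity
  have hmaps : ∀ᶠ q in 𝓝 ((p, 0) : E × E), ∀ ζ ∈ ball (0 : ℂ) 1, Λ (q, ζ) ∈ ball p R₁ := by
    filter_upwards [hfs _ hγ, ball_mem_nhds ((p, 0) : E × E) hγ] with q h1 h2 ζ hζ
    rw [mem_ball, Prod.dist_eq, max_lt_iff, dist_zero_right, dist_eq_norm] at h2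
    rw [mem_ball_zero_iff] at hζ
    have a1 : ‖ζ.re • q.2‖ ≤ R₁ / (‖c.J p‖ + 3) := by
      rw [norm_smul]
      exact (mul_le_of_le_one_left (norm_nonneg _)
        ((Complex.abs_re_le_norm ζ).trans hζ.le)).trans h2.2.le
    have a2 : ‖ζ.im • c.J p q.2‖ ≤ ‖c.J p‖ * (R₁ / (‖c.J p‖ + 3)) := by
      rw [norm_smul]
      exact (mul_le_of_le_one_left (norm_nonneg _)
        ((Complex.abs_im_le_norm ζ).trans hζ.le)).trans ((c.J p).le_opNorm_of_le h2.2.le)
    have a3 := (norm_fst_le _).trans (h1 ζ)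
    have a4 : Λ (q, ζ) - p = (q.1 - p) + ζ.re • q.2 + ζ.im • c.J p q.2 + (f (q, ζ)).1 := by
      simp only [Λ, lin_apply]; abel
    have a5 : (‖c.J p‖ + 3) * (R₁ / (‖c.J p‖ + 3)) = R₁ := by field_simp
    rw [mem_ball, dist_eq_norm, a4]
    have a6 := norm_add_le ((q.1 - p) + ζ.re • q.2 + ζ.im • c.J p q.2) (f (q, ζ)).1
    have a7 := norm_add₃_le (a := q.1 - p) (b := ζ.re • q.2) (c := ζ.im • c.J p q.2)
    linarith [h2.1]
  obtain ⟨r, hr, hrm, hre⟩ := exists_retr ((p, 0) : E × E) (ball_mem_nhds _ hδ₀)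
  have hσr : ContDiff ℝ ∞ fun q => σ (r q) :=
    contDiff_iff_contDiffAt.2 fun q => (hσ _ (hrm q)).1.comp q hr.contDiffAt
  have hσt : Tendsto σ (𝓝 (p, 0)) (𝓝 (p, 0)) := by
    have := hσd.continuousAt.tendsto
    rwa [hσ0] at this
  obtain ⟨δ, hδ, hb⟩ := Metric.mem_nhds_iff.1 (hre.and (hσt.eventually (hfe.and hmaps)))
  have hm : 0 < min δ R := lt_min hδ hR
  have hall : ∀ x ∈ ball p (min δ R), ∀ Z ∈ ball (0 : E) (min δ R), (x, Z) ∈ ball (p, 0) δ :=
    fun x hx Z hZ => by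
      rw [← ball_prod_same]
      exact ⟨ball_subset_ball (min_le_left _ _) hx, ball_subset_ball (min_le_left _ _) hZ⟩
  have hΨσ : ∀ q, r q = q → Ψ (σ q) = q := fun q h => by
    have := (hσ _ (hrm q)).2.2
    rwa [h, sub_sub_cancel] at this
  refine ⟨min δ R, hm, min_le_right _ _, fun y => Λ (σ (r (y.1, y.2.1)), y.2.2),
    hΛ.comp ((hσr.comp (contDiff_fst.prodMk contDiff_snd.fst)).prodMk contDiff_snd.snd),
    fun x hx Z hZ => ?_, fun x hx Z hZ => ?_, fun x hx Z hZ ζ hζ v => ?_,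
    fun x hx Z hZ ζ hζ => ?_, fun ζ _ => ?_⟩
  · obtain ⟨h1, -⟩ := hb (hall x hx Z hZ)
    simp only [h1]
    exact congrArg Prod.fst (hΨσ _ h1)
  · obtain ⟨h1, h2, -⟩ := hb (hall x hx Z hZ)
    simp only [h1]
    exact (h2 0).1.trans (congrArg Prod.snd (hΨσ _ h1))
  · obtain ⟨h1, h2, h3⟩ := hb (hall x hx Z hZ)
    simp only [h1]
    obtain ⟨e1, e2⟩ := h2 ζ
    have e3 := hF.conj ζ hζ _ (h3 ζ hζ)
    have e4 : fderiv ℝ (fun ζ => Λ (σ (x, Z), ζ)) ζ Complex.I =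
        c.J (Λ (σ (x, Z), ζ)) (fderiv ℝ (fun ζ => Λ (σ (x, Z), ζ)) ζ 1) := by
      rw [show fderiv ℝ (fun ζ => Λ (σ (x, Z), ζ)) ζ 1 = _ from e1]
      exact e2.trans (e3 _).symm
    have e5 : v = v.re • (1 : ℂ) + v.im • Complex.I := by
      simp
    have e6 : Complex.I * v = v.re • Complex.I - v.im • (1 : ℂ) := by
      apply Complex.ext <;> simp
    rw [e6]
    conv_rhs => rw [e5]
    simp only [map_add, map_sub, map_smul, e4, c.sq]
    module
  · obtain ⟨h1, -, h3⟩ := hb (hall x hx Z hZ)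
    simp only [h1]
    exact ball_subset_ball hR₁R (h3 ζ hζ)
  · have h1 : HasFDerivAt (fun q => σ (r q)) (ContinuousLinearMap.id ℝ (E × E)) (p, 0) :=
      hσd.congr_of_eventuallyEq (hre.mono fun q h => by simp only [h])
    have h2 := hΛd ζ
    have h4 : ((p, 0) : E × E) = σ (r (p, 0)) := by rw [hre.self_of_nhds, hσ0]
    rw [h4] at h2
    have h3 := ((h2.comp ((p, 0) : E × E) h1).comp (0 : E)
      (hasFDerivAt_prodMk_right (𝕜 := ℝ) p (0 : E))).fderiv
    refine h3.trans ?_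
    ext1 w
    simp

end Pool.Agent.MP_13e7a1_an.H48
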