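import Pool.Agent.MP_13e7a1_an.H82.Spec

/-!
Holomorphic discs, first part: retraction, frame, compatibility.
-/

open scoped ContDiff Topology
open Set Metric MeasureTheory Filter

noncomputable section

namespace Pool.Agent.MP_13e7a1_an.H48

open Pool.Agent.MP_13e7a1_an.H82

/-- A smooth retraction into a neighbourhood. -/
theorem exists_retr {W : Type} [NormedAddCommGroup W] [NormedSpace ℝ W] [FiniteDimensional ℝ W]
    (q₀ : W) {s : Set W} (hs : s ∈ 𝓝 q₀) :
    ∃ r : W → W, ContDiff ℝ ∞ r ∧ (∀ q, r q ∈ s) ∧ ∀ᶠ q in 𝓝 q₀, r q = q := by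
  obtain ⟨ρ, hρ, hb⟩ := Metric.mem_nhds_iff.1 hs
  let b : ContDiffBump q₀ := ⟨ρ / 2, ρ, by linarith, by linarith⟩
  refine ⟨fun q => q₀ + b q • (q - q₀), ?_, fun q => hb ?_, ?_⟩
  · exact contDiff_const.add (b.contDiff.smul (contDiff_id.sub contDiff_const))
  · rw [mem_ball, dist_eq_norm, add_sub_cancel_left, norm_smul, Real.norm_eq_abs,
      abs_of_nonneg b.nonneg]
    by_cases h : ρ ≤ dist q q₀
    · rw [b.zero_of_le_dist h, zero_mul]; exact hρ
    · rw [dist_eq_norm, not_le] at h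
      exact (mul_le_of_le_one_left (norm_nonneg _) b.le_one).trans_lt h
  · filter_upwards [b.eventuallyEq_one] with q hq
    rw [hq]; simp

/-- A frame conjugating `J` to the constant structure `J p`. -/
structure Frame (J : E → E →L[ℝ] E) (p : E) (R₁ : ℝ) (B A : ℂ × E → E →L[ℝ] E) : Prop where
  smB : ContDiff ℝ ∞ B
  smA : ContDiff ℝ ∞ A
  inv : ∀ y v, B y (A y v) = v
  base : ∀ z, B (z, p) = ContinuousLinearMap.id ℝ E
  far : ∀ y : ℂ × E, 3 ≤ ‖y.1‖ → B y = ContinuousLinearMap.id ℝ E ∧ fderiv ℝ B y = 0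
  bdd : ∃ C, 0 ≤ C ∧ ∀ y, ‖fderiv ℝ B y‖ ≤ C
  conj : ∀ z ∈ ball (0 : ℂ) 1, ∀ x ∈ ball p R₁, ∀ v, J x (B (z, x) v) = B (z, x) (J p v)

theorem exists_frame (c : Ctx) (p : E) (R : ℝ) (hR : 0 < R) :
    ∃ R₁ : ℝ, 0 < R₁ ∧ R₁ ≤ R ∧ ∃ B A, Frame c.J p R₁ B A := by
  have hc : ContinuousAt (fun x => ‖(1 / 2 : ℝ) • ((c.J x - c.J p) * c.J p)‖) p := by
    have := c.smooth.continuous
    fun_prop
  have hn := hc.eventually (gt_mem_nhds (show ‖(1 / 2 : ℝ) • ((c.J p - c.J p) * c.J p)‖ < 1 by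
    simp))
  obtain ⟨r, hr, hb⟩ := Metric.mem_nhds_iff.1 hn
  have hm : 0 < min R (r / 2) := lt_min hR (by linarith)
  let b : ContDiffBump p := ⟨min R (r / 2), r, hm, (min_le_right _ _).trans_lt (by linarith)⟩
  let χ : ContDiffBump (0 : ℂ) := ⟨1, 2, one_pos, by norm_num⟩
  let π : ℂ × E → E := fun y => p + (χ y.1 * b y.2) • (y.2 - p)
  have hπ : ContDiff ℝ ∞ π :=
    contDiff_const.add (((χ.contDiff.comp contDiff_fst).mul (b.contDiff.comp contDiff_snd)).smul
      (contDiff_snd.sub contDiff_const))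
  have hπm : ∀ y, π y ∈ ball p r := fun y => by
    rw [mem_ball, dist_eq_norm, add_sub_cancel_left, norm_smul, Real.norm_eq_abs,
      abs_of_nonneg (mul_nonneg χ.nonneg b.nonneg)]
    by_cases h : r ≤ dist y.2 p
    · rw [b.zero_of_le_dist h, mul_zero, zero_mul]; exact hr
    · rw [dist_eq_norm, not_le] at h
      exact (mul_le_of_le_one_left (norm_nonneg _)
        (mul_le_one₀ χ.le_one b.nonneg b.le_one)).trans_lt h
  let B : ℂ × E → E →L[ℝ] E := fun y => 1 - (1 / 2 : ℝ) • ((c.J (π y) - c.J p) * c.J p)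
  have hB : ContDiff ℝ ∞ B :=
    contDiff_const.sub ((((c.smooth.comp hπ).sub contDiff_const).mul contDiff_const).const_smul _)
  have hu : ∀ y, IsUnit (B y) := fun y => (Units.oneSub _ (hb (hπm y))).isUnit
  have h1 : ∀ y, π y = p → B y = ContinuousLinearMap.id ℝ E := fun y hy => by
    simp only [B, hy, sub_self, zero_mul, smul_zero, sub_zero]; rfl
  have hfar : ∀ y : ℂ × E, (2 ≤ ‖y.1‖ ∨ r ≤ dist y.2 p) → B y = ContinuousLinearMap.id ℝ E :=
    fun y hy => h1 y (by
      rcases hy with hy | hy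
      · simp only [π, χ.zero_of_le_dist (x := y.1) (by simpa using hy), zero_mul, zero_smul,
          add_zero]
      · simp only [π, b.zero_of_le_dist hy, mul_zero, zero_smul, add_zero])
  have hfar' : ∀ y : ℂ × E, (2 < ‖y.1‖ ∨ r < dist y.2 p) → fderiv ℝ B y = 0 := fun y hy => by
    have : B =ᶠ[𝓝 y] fun _ => ContinuousLinearMap.id ℝ E := by
      rcases hy with hy | hy
      · filter_upwards [(continuous_fst.norm.continuousAt (x := y)).eventually (lt_mem_nhds hy)]
          with w hw using hfar w (Or.inl hw.le)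
      · filter_upwards [((continuous_snd.dist continuous_const).continuousAt (x := y)).eventually
          (lt_mem_nhds hy)] with w hw using hfar w (Or.inr hw.le)
    rw [this.fderiv_eq, fderiv_fun_const]; rfl
  refine ⟨min R (r / 2), hm, min_le_left _ _, B, fun y => Ring.inverse (B y), hB, ?_, fun y v => ?_,
    fun z => h1 _ (by simp [π]), fun y hy => ⟨hfar y (Or.inl (by linarith)),
      hfar' y (Or.inl (by linarith))⟩, ?_, fun z hz x hx v => ?_⟩
  · refine contDiff_iff_contDiffAt.2 fun y => ?_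
    obtain ⟨u, hu⟩ := hu y
    exact ContDiffAt.comp y (g := Ring.inverse) (hu ▸ contDiffAt_ringInverse ℝ u) hB.contDiffAt
  · rw [← mul_apply_eq_comp, Ring.mul_inverse_cancel _ (hu y)]; rfl
  · have hcs : HasCompactSupport (fderiv ℝ B) :=
      HasCompactSupport.intro ((isCompact_closedBall (0 : ℂ) 2).prod (isCompact_closedBall p r))
        fun y hy => hfar' y (by
          by_contra h
          push Not at h
          exact hy ⟨by simpa using h.1, h.2⟩)
    obtain ⟨C, hC⟩ := (hB.continuous_fderiv (by simp)).bounded_above_of_compact_support hcs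
    exact ⟨C, (norm_nonneg _).trans (hC 0), hC⟩
  · have h2 : π (z, x) = x := by
      simp only [π, χ.one_of_mem_closedBall (ball_subset_closedBall hz),
        b.one_of_mem_closedBall (ball_subset_closedBall hx), one_mul, one_smul, add_sub_cancel]
    simp only [B, h2, sub_apply, smul_apply,
      mul_apply_eq_comp, one_apply_eq_self, map_sub, map_smul, c.sq,
      map_neg]
    module

/-- The prolonged system implies the first order system when `P` is small. -/
theorem compat (hA : SCauA) (hB : SCauB) (J₀ : E →L[ℝ] E) (hJ : ∀ v, J₀ (J₀ v) = -v)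
    {J : E → E →L[ℝ] E} {p : E} {R₁ : ℝ} {B A : ℂ × E → E →L[ℝ] E} (hF : Frame J p R₁ B A) :
    ∃ η : ℝ, 0 < η ∧ ∀ lam P : ℂ → E, ContDiff ℝ ∞ lam → ContDiff ℝ ∞ P → (∀ z, ‖P z‖ ≤ η) →
      (∀ z, dbar J₀ lam z = B (z, lam z) (P z) + J₀ (B (z, lam z) (J₀ (P z)))) →
      (∀ z, dbar J₀ P z = J₀ (A (z, lam z)
        (fderiv ℝ B (z, lam z) (1, B (z, lam z) (P z)) (J₀ (P z))
          - fderiv ℝ B (z, lam z) (Complex.I, B (z, lam z) (J₀ (P z))) (P z)))) →
      Tendsto (fun z => fderiv ℝ lam z 1 - P z) (cocompact ℂ) (𝓝 0) →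
      ∀ z, fderiv ℝ lam z 1 = B (z, lam z) (P z) ∧
        fderiv ℝ lam z Complex.I = B (z, lam z) (J₀ (P z)) := by
  obtain ⟨C, hC, hbd⟩ := hF.bdd
  obtain ⟨C', hC', hbd'⟩ := hA.bound E J₀ 3
  have hK : 0 < 4 * C * C' * ‖J₀‖ ^ 2 + 1 := by positivity
  refine ⟨1 / (4 * C * C' * ‖J₀‖ ^ 2 + 1), by positivity, fun lam P hl hP hη h1 h2 h3 => ?_⟩
  set η := 1 / (4 * C * C' * ‖J₀‖ ^ 2 + 1) with hηd
  have hη0 : 0 ≤ η := by positivity
  have hdl : ContDiff ℝ ∞ (fderiv ℝ lam) := hl.fderiv_right (by simp)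
  have hBl : ContDiff ℝ ∞ fun z => B (z, lam z) := hF.smB.comp (contDiff_id.prodMk hl)
  let Er : ℂ → E := fun z => fderiv ℝ lam z 1 - B (z, lam z) (P z)
  have hEr : ContDiff ℝ ∞ Er := (hdl.clm_apply contDiff_const).sub (hBl.clm_apply hP)
  have hs : ∀ z, fderiv ℝ lam z 1 = B (z, lam z) (P z) + Er z := fun z => by simp [Er]
  have ht : ∀ z, fderiv ℝ lam z Complex.I = B (z, lam z) (J₀ (P z)) + J₀ (Er z) := fun z => by
    have := congrArg J₀ (h1 z)
    simp only [dbar, map_add, hJ] at this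
    simp only [Er, map_sub]
    linear_combination (norm := module) -this
  have hdB : ∀ z v, fderiv ℝ (fun z => B (z, lam z)) z v =
      fderiv ℝ B (z, lam z) (v, fderiv ℝ lam z v) := fun z v => by
    have := ((hF.smB.differentiable (by simp)) (z, lam z)).hasFDerivAt.comp z
      ((hasFDerivAt_id z).prodMk ((hl.differentiable (by simp)) z).hasFDerivAt)
    exact congrArg (fun L => L v) this.fderiv
  have hdd : ∀ (w : ℂ) z v, fderiv ℝ (fun z => fderiv ℝ lam z w) z v =
      fderiv ℝ (fderiv ℝ lam) z v w := fun w z v => by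
    rw [fderiv_clm_apply ((hdl.differentiable (by simp)) z) (differentiableAt_const _)]
    simp
  have hdBP : ∀ (G : ℂ → E), ContDiff ℝ ∞ G → ∀ z v, fderiv ℝ (fun z => B (z, lam z) (G z)) z v =
      B (z, lam z) (fderiv ℝ G z v) + fderiv ℝ B (z, lam z) (v, fderiv ℝ lam z v) (G z) :=
    fun G hG z v => by
      rw [fderiv_clm_apply ((hBl.differentiable (by simp)) z) ((hG.differentiable (by simp)) z)]
      simp [hdB]
  have hdJ : ∀ (G : ℂ → E), ContDiff ℝ ∞ G → ∀ z v, fderiv ℝ (fun z => J₀ (G z)) z v =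
      J₀ (fderiv ℝ G z v) := fun G hG z v => by
    have := J₀.hasFDerivAt.comp z ((hG.differentiable (by simp)) z).hasFDerivAt
    exact congrArg (fun L => L v) this.fderiv
  have hJP : ContDiff ℝ ∞ fun z => J₀ (P z) := J₀.contDiff.comp hP
  have hJE : ContDiff ℝ ∞ fun z => J₀ (Er z) := J₀.contDiff.comp hEr
  have key : ∀ z, dbar J₀ Er z = J₀ (fderiv ℝ B (z, lam z) (0, Er z) (J₀ (P z))
      - fderiv ℝ B (z, lam z) (0, J₀ (Er z)) (P z)) := fun z => by
    have e1 : fderiv ℝ (fderiv ℝ lam) z Complex.I 1 = B (z, lam z) (fderiv ℝ P z Complex.I)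
        + fderiv ℝ B (z, lam z) (Complex.I, fderiv ℝ lam z Complex.I) (P z)
        + fderiv ℝ Er z Complex.I := by
      rw [← hdd, ← hdBP P hP, funext hs,
        fderiv_fun_add (((hBl.clm_apply hP).differentiable (by simp)) z)
          ((hEr.differentiable (by simp)) z)]
      rfl
    have e2 : fderiv ℝ (fderiv ℝ lam) z 1 Complex.I = B (z, lam z) (J₀ (fderiv ℝ P z 1))
        + fderiv ℝ B (z, lam z) (1, fderiv ℝ lam z 1) (J₀ (P z))
        + J₀ (fderiv ℝ Er z 1) := by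
      rw [← hdd, ← hdJ P hP, ← hdBP _ hJP, ← hdJ Er hEr, funext ht,
        fderiv_fun_add (((hBl.clm_apply hJP).differentiable (by simp)) z)
          ((hJE.differentiable (by simp)) z)]
      rfl
    have e3 : fderiv ℝ (fderiv ℝ lam) z 1 Complex.I = fderiv ℝ (fderiv ℝ lam) z Complex.I 1 :=
      (hl.contDiffAt.isSymmSndFDerivAt (by simp; exact WithTop.coe_le_coe.2 le_top)) _ _
    have e4 := congrArg (fun v => B (z, lam z) (J₀ v)) (h2 z)
    simp only [dbar, map_add, hJ, map_neg, hF.inv] at e4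
    have e5 : fderiv ℝ B (z, lam z) (1, fderiv ℝ lam z 1) =
        fderiv ℝ B (z, lam z) (1, B (z, lam z) (P z)) + fderiv ℝ B (z, lam z) (0, Er z) := by
      rw [← map_add, hs z]; simp
    have e6 : fderiv ℝ B (z, lam z) (Complex.I, fderiv ℝ lam z Complex.I) =
        fderiv ℝ B (z, lam z) (Complex.I, B (z, lam z) (J₀ (P z)))
          + fderiv ℝ B (z, lam z) (0, J₀ (Er z)) := by
      rw [← map_add, ht z]; simp
    rw [e5] at e2
    rw [e6] at e1
    simp only [add_apply] at e1 e2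
    have e7 : fderiv ℝ Er z Complex.I - J₀ (fderiv ℝ Er z 1) =
        fderiv ℝ B (z, lam z) (0, Er z) (J₀ (P z)) - fderiv ℝ B (z, lam z) (0, J₀ (Er z)) (P z) := by
      linear_combination (norm := module) e2 - e1 - e3 + e4
    rw [← e7, map_sub, hJ, dbar]
    abel
  have hz : ∀ z, 3 ≤ ‖z‖ → dbar J₀ Er z = 0 := fun z hz => by
    rw [key, (hF.far (z, lam z) hz).2]; simp
  have hcs : HasCompactSupport (dbar J₀ Er) :=
    HasCompactSupport.intro (isCompact_closedBall (0 : ℂ) 3) fun z h =>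
      hz z (le_of_lt (by simpa using h))
  have hdec : Tendsto Er (cocompact ℂ) (𝓝 0) := by
    refine h3.congr' ?_
    filter_upwards [(isCompact_closedBall (0 : ℂ) 3).compl_mem_cocompact] with z h
    simp only [Er, (hF.far (z, lam z) (le_of_lt (by simpa using h))).1,
      ContinuousLinearMap.id_apply]
  have hbdd : BddAbove (range fun z => ‖Er z‖) := by
    have h4 : ∀ᶠ z in cocompact ℂ, ‖Er z‖ < 1 :=
      hdec.norm.eventually (gt_mem_nhds (by simp))
    obtain ⟨K, hK, hK'⟩ := mem_cocompact.1 h4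
    obtain ⟨M, hM⟩ := hK.exists_bound_of_continuousOn hEr.continuous.continuousOn
    refine ⟨max M 1, ?_⟩
    rintro _ ⟨z, rfl⟩
    by_cases h : z ∈ K
    · exact (hM z h).trans (le_max_left _ _)
    · exact (le_of_lt (hK' h)).trans (le_max_right _ _)
  set S := ⨆ z, ‖Er z‖ with hS
  have hle : ∀ z, ‖Er z‖ ≤ S := fun z => le_ciSup hbdd z
  have hS0 : 0 ≤ S := (norm_nonneg _).trans (hle 0)
  have hcont : Continuous (dbar J₀ Er) := by
    have := (hEr.continuous_fderiv (by simp))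
    unfold dbar
    fun_prop
  have hest : ∀ z, ‖dbar J₀ Er z‖ ≤ 2 * C * ‖J₀‖ ^ 2 * η * S := fun z => by
    have a1 : ∀ (u v : E) (s t : ℝ), ‖u‖ ≤ s → ‖v‖ ≤ t →
        ‖fderiv ℝ B (z, lam z) (0, u) v‖ ≤ C * s * t := fun u v s t hu hv => by
      have b1 : ‖fderiv ℝ B (z, lam z) (0, u)‖ ≤ C * s :=
        (fderiv ℝ B (z, lam z)).le_of_opNorm_le_of_le (hbd _) (by simpa using hu)
      exact (fderiv ℝ B (z, lam z) (0, u)).le_of_opNorm_le_of_le b1 hv
    have a2 := a1 (Er z) (J₀ (P z)) S (‖J₀‖ * η) (hle z) (J₀.le_opNorm_of_le (hη z))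
    have a3 := a1 (J₀ (Er z)) (P z) (‖J₀‖ * S) η (J₀.le_opNorm_of_le (hle z)) (hη z)
    rw [key]
    refine (J₀.le_opNorm_of_le ((norm_sub_le _ _).trans (add_le_add a2 a3))).trans_eq ?_
    ring
  have hfin : S ≤ C' * (2 * C * ‖J₀‖ ^ 2 * η * S) := ciSup_le fun z => by
    rw [hB.uniq E J₀ hJ Er hEr hdec hcs z]
    exact (hbd' _ _ hcont hz hest).2 z
  have hη1 : (4 * C * C' * ‖J₀‖ ^ 2 + 1) * η = 1 := by
    rw [hηd]; field_simp
  have hS1 : S ≤ 0 := by nlinarith [mul_nonneg hη0 hS0]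
  intro z
  have h0 : Er z = 0 := norm_le_zero_iff.1 ((hle z).trans hS1)
  rw [hs, ht, h0]
  simp

end Pool.Agent.MP_13e7a1_an.H48
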